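import Pool.Agent.R706.QR.Sim

/-!
The centralizer of a nilpotent endomorphism over the quaternions, inside the group of units,
is path connected.
-/

set_option linter.unusedSectionVars false

noncomputable section

namespace Pool.Agent.R706.QR

open Quaternion Module

theorem exists_path (b : D) (hb : b ≠ 0) :
    ∃ f : ℝ → D, Continuous f ∧ (∀ s, f s ≠ 0) ∧ f 0 = 1 ∧ f 1 = b := by
  have h1 : 1 < Module.rank ℝ D := by
    rw [show Module.rank ℝ D = 4 from Quaternion.rank_eq_four]
    norm_num
  have h2 := isPathConnected_compl_singleton_of_one_lt_rank h1 (0 : D)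
  obtain ⟨γ, hγ⟩ := h2.joinedIn 1 (by simp) b (by simpa using hb)
  refine ⟨γ.extend, γ.continuous_extend, fun s => ?_, by simp, by simp⟩
  have : γ.extend s ∈ Set.range γ := by
    rw [← γ.extend_range]
    exact Set.mem_range_self s
  obtain ⟨t, ht⟩ := this
  rw [← ht]
  simpa using hγ t

theorem two_functional {V : Type} [AddCommGroup V] [Module D V] {u1 u2 : V} (h1 : u1 ≠ 0)
    (h2 : u2 ≠ 0) : ∃ l : V →ₗ[D] D, l u1 = 1 ∧ l u2 ≠ 0 := by
  obtain ⟨f1, hf1⟩ : ∃ l : V →ₗ[D] D, l u1 = 1 := by
    obtain ⟨f, hf, -⟩ := Submodule.exists_le_ker_of_notMem (p := (⊥ : Submodule D V)) (v := u1)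
      (by simpa using h1)
    exact ⟨(LinearMap.toSpanSingleton D D (f u1)⁻¹) ∘ₗ f, by simp [hf]⟩
  obtain ⟨f2, hf2⟩ : ∃ l : V →ₗ[D] D, l u2 = 1 := by
    obtain ⟨f, hf, -⟩ := Submodule.exists_le_ker_of_notMem (p := (⊥ : Submodule D V)) (v := u2)
      (by simpa using h2)
    exact ⟨(LinearMap.toSpanSingleton D D (f u2)⁻¹) ∘ₗ f, by simp [hf]⟩
  by_cases h : f1 u2 = 0
  · by_cases h' : f2 u1 = 0
    · refine ⟨f1 + f2, by simp [hf1, h'], by simp [h, hf2]⟩
    · refine ⟨(LinearMap.toSpanSingleton D D (f2 u1)⁻¹) ∘ₗ f2, by simp [h'], ?_⟩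
      simp [hf2, h']
  · exact ⟨f1, hf1, h⟩

/-- right multiplication of the coordinates -/
def Rb (m : ℕ) (b : D) : Module.End D (Fin (m + 1) → D) where
  toFun a := fun i => a i * b
  map_add' x y := by funext i; simp [add_mul]
  map_smul' c x := by funext i; simp [mul_assoc]

theorem Rb_apply (m : ℕ) (b : D) (a : Fin (m + 1) → D) (i : Fin (m + 1)) :
    Rb m b a i = a i * b := rfl

theorem Rb_S (m : ℕ) (b : D) : Rb m b * S m = S m * Rb m b := by
  apply LinearMap.ext
  intro a
  funext i
  refine Fin.cases ?_ (fun j => ?_) i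
  · simp [Module.End.mul_apply, Rb_apply]
  · simp [Module.End.mul_apply, Rb_apply]

theorem Rb_mul (m : ℕ) (b c : D) : Rb m b * Rb m c = Rb m (c * b) := by
  apply LinearMap.ext
  intro a
  funext i
  simp [Module.End.mul_apply, Rb_apply, mul_assoc]

theorem Rb_one (m : ℕ) : Rb m 1 = 1 := by
  apply LinearMap.ext
  intro a
  funext i
  simp [Rb_apply]

section

variable {V : Type} [AddCommGroup V] [Module D V] [Module ℝ V] [IsScalarTower ℝ D V]
  [Module.Finite D V]

theorem rho_good {A : Module.End D V} {m : ℕ} (hA : A ^ (m + 1) = 0) {l : V →ₗ[D] D} {v : V}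
    (hl : ∀ k, l ((A ^ k) v) = if k = m then 1 else 0) {b : D} (hb : b ≠ 0) :
    Good A (1 + Pm A m v ∘ₗ (Rb m b - 1) ∘ₗ Cm A l m) := by
  obtain ⟨f, f1, f2, f3, f4⟩ := exists_path b hb
  have hcont : ∀ f : ℝ → D, Continuous f →
      WCont (fun s => 1 + Pm A m v ∘ₗ (Rb m (f s) - 1) ∘ₗ Cm A l m) := by
    intro f hf
    refine (WCont.const _).add ?_
    intro u l'
    have : ∀ s, l' ((Pm A m v ∘ₗ (Rb m (f s) - 1) ∘ₗ Cm A l m) u) =
        ∑ i : Fin (m + 1), (Cm A l m u i * f s - Cm A l m u i) * l' ((A ^ (i : ℕ)) v) := by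
      intro s
      rw [LinearMap.comp_apply, LinearMap.comp_apply, Pm_apply, map_sum]
      refine Finset.sum_congr rfl fun i _ => ?_
      rw [map_smul, smul_eq_mul]
      rfl
    simp only [this]
    refine continuous_finsetSum _ fun i _ => ?_
    exact (((continuous_const.mul hf).sub continuous_const).mul continuous_const)
  have hmul : ∀ c' d' : D, c' * d' = 1 →
      (1 + Pm A m v ∘ₗ (Rb m d' - 1) ∘ₗ Cm A l m) *
        (1 + Pm A m v ∘ₗ (Rb m c' - 1) ∘ₗ Cm A l m) = 1 := by
    intro c' d' hcd
    apply LinearMap.ext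
    intro u
    simp only [Module.End.mul_apply, LinearMap.add_apply, Module.End.one_apply,
      LinearMap.comp_apply, map_add, Cm_Pm hl]
    set x := Cm A l m u with hx
    have h1 : (Rb m d' - 1) x + (Rb m d' - 1) ((Rb m c' - 1) x) + (Rb m c' - 1) x = 0 := by
      funext i
      simp only [LinearMap.sub_apply, Module.End.one_apply, Pi.add_apply, Pi.sub_apply,
        Rb_apply, Pi.zero_apply, map_sub]
      have : x i * c' * d' = x i := by rw [mul_assoc, hcd, mul_one]
      rw [this]
      abel
    have h2 : Pm A m v ((Rb m d' - 1) x) + Pm A m v ((Rb m d' - 1) ((Rb m c' - 1) x)) +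
        Pm A m v ((Rb m c' - 1) x) = 0 := by
      rw [← map_add, ← map_add, h1, map_zero]
    calc _ = u + (Pm A m v ((Rb m d' - 1) x) + Pm A m v ((Rb m d' - 1) ((Rb m c' - 1) x)) +
        Pm A m v ((Rb m c' - 1) x)) := by abel
      _ = u := by rw [h2, add_zero]
  refine ⟨fun s => 1 + Pm A m v ∘ₗ (Rb m (f s) - 1) ∘ₗ Cm A l m,
    fun s => 1 + Pm A m v ∘ₗ (Rb m (f s)⁻¹ - 1) ∘ₗ Cm A l m, hcont f f1,
    hcont _ (f1.inv₀ f2), fun s => ?_, fun s => ?_, fun s => ?_, ?_, ?_⟩
  · exact hmul _ _ (inv_mul_cancel₀ (f2 s))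
  · exact hmul _ _ (mul_inv_cancel₀ (f2 s))
  · apply LinearMap.ext
    intro u
    simp only [Module.End.mul_apply, LinearMap.add_apply, Module.End.one_apply,
      LinearMap.comp_apply, map_add, Cm_A hA, A_Pm hA]
    congr 2
    have := congrArg (fun T : Module.End D (Fin (m + 1) → D) => T (Cm A l m u)) (Rb_S m (f s))
    simp only [Module.End.mul_apply] at this
    rw [LinearMap.sub_apply, LinearMap.sub_apply, this, map_sub]
    rfl
  · simp [f3, Rb_one]
  · simp [f4]

theorem psi_nil {A : Module.End D V} {m : ℕ} (hA : A ^ (m + 1) = 0) (l : V →ₗ[D] D) {y : V}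
    (hy : l ((A ^ m) y) = 0) : (Pm A m y ∘ₗ Cm A l m : Module.End D V) ^ (m + 2) = 0 := by
  set T : Module.End D (Fin (m + 1) → D) := Cm A l m ∘ₗ Pm A m y with hT
  have hz : ∀ j, m + 1 ≤ j → A ^ j = 0 := fun j hj => by
    obtain ⟨c, rfl⟩ := Nat.exists_eq_add_of_le hj
    rw [pow_add, hA, zero_mul]
  have h1 : ∀ (a : Fin (m + 1) → D) (j : Fin (m + 1)), (∀ i : Fin (m + 1), (i : ℕ) < j → a i = 0) →
      T a j = 0 := by
    intro a j ha
    change Cm A l m (Pm A m y a) j = 0
    rw [Cm_apply, Pm_apply, map_sum, map_sum]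
    refine Finset.sum_eq_zero fun i _ => ?_
    rw [map_smul, map_smul, ← Module.End.mul_apply, ← pow_add]
    have := j.isLt
    rcases Nat.lt_trichotomy (i : ℕ) j with h | h | h
    · rw [ha i h, zero_smul]
    · rw [show m - (j : ℕ) + i = m by omega, hy, smul_zero]
    · rw [hz (m - (j : ℕ) + i) (by omega)]
      simp
  have h2 : ∀ k (a : Fin (m + 1) → D) (j : Fin (m + 1)), (j : ℕ) < k → (T ^ k) a j = 0 := by
    intro k
    induction k with
    | zero => intro a j hj; omega
    | succ k ih =>
      intro a j hj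
      rw [pow_succ', Module.End.mul_apply]
      exact h1 _ _ fun i hi => ih a i (by omega)
  have h3 : T ^ (m + 1) = 0 := by
    apply LinearMap.ext
    intro a
    funext j
    exact h2 _ a j j.isLt
  have h4 : ∀ k, (Pm A m y ∘ₗ Cm A l m : Module.End D V) ^ (k + 1) =
      Pm A m y ∘ₗ (T ^ k) ∘ₗ Cm A l m := by
    intro k
    induction k with
    | zero => simp [Module.End.one_eq_id]
    | succ k ih =>
      rw [pow_succ, ih]
      apply LinearMap.ext
      intro u
      simp only [Module.End.mul_apply, LinearMap.comp_apply, pow_succ T]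
      rfl
  rw [h4 (m + 1), h3]
  simp

theorem psi_comm {A : Module.End D V} {m : ℕ} (hA : A ^ (m + 1) = 0) (l : V →ₗ[D] D) (y : V) :
    (Pm A m y ∘ₗ Cm A l m : Module.End D V) * A = A * (Pm A m y ∘ₗ Cm A l m) := by
  apply LinearMap.ext
  intro u
  simp only [Module.End.mul_apply, LinearMap.comp_apply, Cm_A hA, A_Pm hA]

theorem Pm_single {A : Module.End D V} (m : ℕ) (y : V) :
    Pm A m y (Pi.single 0 1) = y := by
  rw [Pm_apply, Finset.sum_eq_single 0]
  · simp
  · intro i _ hi
    simp [hi]
  · simp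

theorem Cm_self {A : Module.End D V} {m : ℕ} {l : V →ₗ[D] D} {v : V}
    (hl : ∀ k, l ((A ^ k) v) = if k = m then 1 else 0) : Cm A l m v = Pi.single 0 1 := by
  rw [← Cm_Pm hl (Pi.single 0 1), Pm_single]

end

theorem aut_good (n : ℕ) : ∀ (V : Type) [AddCommGroup V] [Module D V] [Module ℝ V]
    [IsScalarTower ℝ D V] [Module.Finite D V] (A g g' : Module.End D V), finrank D V = n →
    IsNilpotent A → g * g' = 1 → g' * g = 1 → g * A = A * g → Good A g := by
  induction n using Nat.strong_induction_on with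
  | _ n ih =>
    intro V _ _ _ _ _ A g g' hn hA hgg' hg'g hgA
    by_cases h1 : (1 : Module.End D V) = 0
    · have : g = 1 := by
        calc g = g * 1 := (mul_one g).symm
          _ = 1 := by rw [h1, mul_zero]
      rw [this]
      exact Good.one A
    obtain ⟨m, hm1, hm2⟩ := exists_index hA h1
    have hgAk : ∀ k, g * A ^ k = A ^ k * g := fun k =>
      (Commute.pow_right (show Commute g A from hgA) k).eq
    obtain ⟨v0, hv0⟩ : ∃ v, (A ^ m) v ≠ 0 := by
      by_contra hcon
      push Not at hcon
      exact hm2 (LinearMap.ext hcon)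
    have hgv0 : (A ^ m) (g v0) ≠ 0 := by
      intro h
      apply hv0
      have h2 : g ((A ^ m) v0) = 0 := by
        rw [← Module.End.mul_apply, hgAk, Module.End.mul_apply, h]
      calc (A ^ m) v0 = (g' * g) ((A ^ m) v0) := by rw [hg'g]; rfl
        _ = 0 := by rw [Module.End.mul_apply, h2, map_zero]
    obtain ⟨l, hl1, hl2⟩ := two_functional hv0 hgv0
    obtain ⟨v, hl, z, hz⟩ := norm_lemma hm1 l v0 hl1
    set b : D := l ((A ^ m) (g v)) with hb
    have hb0 : b ≠ 0 := by
      have : (A ^ m) (g v) = (A ^ m) (g v0) := by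
        rw [hz, map_add, map_add]
        have : (A ^ m) (g (A z)) = 0 := by
          rw [← Module.End.mul_apply g, hgA, Module.End.mul_apply,
            ← Module.End.mul_apply (A ^ m), ← pow_succ, hm1]
          rfl
        rw [this, add_zero]
      rw [hb, this]
      exact hl2
    set y : V := b⁻¹ • g v - v with hy
    have hy0 : l ((A ^ m) y) = 0 := by
      rw [hy, map_sub, map_sub, map_smul, map_smul, ← hb, hl, if_pos rfl, smul_eq_mul,
        inv_mul_cancel₀ hb0, sub_self]
    have hρ := rho_good hm1 hl hb0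
    have hψ := Good.unip (psi_comm hm1 l y) (psi_nil hm1 l hy0)
    have hh := hψ.mul hρ
    set h := (1 + Pm A m y ∘ₗ Cm A l m) *
      (1 + Pm A m v ∘ₗ (Rb m b - 1) ∘ₗ Cm A l m) with hhdef
    have hhv : h v = g v := by
      have e1 : (1 + Pm A m v ∘ₗ (Rb m b - 1) ∘ₗ Cm A l m) v = b • v := by
        rw [LinearMap.add_apply, LinearMap.comp_apply, LinearMap.comp_apply, Cm_self hl]
        have : (Rb m b - 1) (Pi.single 0 1) = (b - 1) • (Pi.single 0 1 : Fin (m + 1) → D) := by
          funext i
          by_cases hi : i = 0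
          · subst hi; simp [Rb_apply]
          · simp [Rb_apply, hi]
        rw [this, map_smul, Pm_single, sub_smul, one_smul]
        simp
      rw [hhdef, Module.End.mul_apply, e1, map_smul, LinearMap.add_apply, LinearMap.comp_apply,
        Cm_self hl, Pm_single, Module.End.one_apply, hy]
      rw [show v + (b⁻¹ • g v - v) = b⁻¹ • g v by abel, smul_smul, mul_inv_cancel₀ hb0,
        one_smul]
    -- the inverse of `h`
    obtain ⟨h', hh1, hh2, hh3⟩ : ∃ h', h * h' = 1 ∧ h' * h = 1 ∧ h * A = A * h := by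
      obtain ⟨γ, γ', _, _, a3, a4, a5, _, a7⟩ := hh
      exact ⟨γ' 1, by rw [← a7]; exact a3 1, by rw [← a7]; exact a4 1, by rw [← a7]; exact a5 1⟩
    have hh'A : h' * A = A * h' := by
      calc h' * A = h' * A * (h * h') := by rw [hh1, mul_one]
        _ = h' * (A * h) * h' := by noncomm_ring
        _ = h' * (h * A) * h' := by rw [hh3]
        _ = (h' * h) * A * h' := by noncomm_ring
        _ = A * h' := by rw [hh2, one_mul]
    set g1 := h' * g with hg1
    have hg : g = h * g1 := by rw [hg1, ← mul_assoc, hh1, one_mul]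
    rw [hg]
    refine hh.mul ?_
    set g1' := g' * h with hg1'
    have k1 : g1 * g1' = 1 := by
      rw [hg1, hg1']
      calc h' * g * (g' * h) = h' * (g * g') * h := by noncomm_ring
        _ = 1 := by rw [hgg', mul_one, hh2]
    have k2 : g1' * g1 = 1 := by
      rw [hg1, hg1']
      calc g' * h * (h' * g) = g' * (h * h') * g := by noncomm_ring
        _ = 1 := by rw [hh1, mul_one, hg'g]
    have k3 : g1 * A = A * g1 := by
      rw [hg1, mul_assoc, hgA, ← mul_assoc, hh'A, mul_assoc]
    have k4 : g1 v = v := by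
      rw [hg1, Module.End.mul_apply, ← hhv, ← Module.End.mul_apply, hh2]
      rfl
    have k3k : ∀ k, g1 * A ^ k = A ^ k * g1 := fun k =>
      (Commute.pow_right (show Commute g1 A from k3) k).eq
    have k5 : ∀ a, g1 (Pm A m v a) = Pm A m v a := by
      intro a
      rw [Pm_apply, map_sum]
      refine Finset.sum_congr rfl fun i _ => ?_
      rw [map_smul, ← Module.End.mul_apply, k3k, Module.End.mul_apply, k4]
    have k6 : ∀ a, g1' (Pm A m v a) = Pm A m v a := by
      intro a
      calc g1' (Pm A m v a) = g1' (g1 (Pm A m v a)) := by rw [k5]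
        _ = (g1' * g1) (Pm A m v a) := rfl
        _ = _ := by rw [k2]; rfl
    obtain ⟨W, e, A'', hA'', hes⟩ : ∃ (W : Submodule D V) (e : V ≃ₗ[D] (Fin (m + 1) → D) × W)
        (A'' : Module.End D W), A = blk e (S m) A'' ∧ ∀ a, e.symm (a, 0) = Pm A m v a := by
      obtain ⟨A'', hA''⟩ := split_blk hm1 hl
      exact ⟨_, splitE hl, A'', hA'', fun a => splitE_symm hl a⟩
    -- components
    set inr : W →ₗ[D] V :=
      e.symm.toLinearMap ∘ₗ LinearMap.inr D (Fin (m + 1) → D) W with hinr
    set bb : W →ₗ[D] (Fin (m + 1) → D) :=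
      LinearMap.fst D _ _ ∘ₗ e.toLinearMap ∘ₗ g1 ∘ₗ inr with hbb
    set dd : Module.End D W :=
      LinearMap.snd D _ _ ∘ₗ e.toLinearMap ∘ₗ g1 ∘ₗ inr with hdd
    set bb' : W →ₗ[D] (Fin (m + 1) → D) :=
      LinearMap.fst D _ _ ∘ₗ e.toLinearMap ∘ₗ g1' ∘ₗ inr with hbb'
    set dd' : Module.End D W :=
      LinearMap.snd D _ _ ∘ₗ e.toLinearMap ∘ₗ g1' ∘ₗ inr with hdd'
    have hdec : ∀ (x : Fin (m + 1) → D) (w : W),
        e.symm (x, w) = Pm A m v x + inr w := by
      intro x w
      rw [← hes, hinr]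
      simp only [LinearMap.comp_apply, LinearMap.inr_apply, LinearEquiv.coe_coe]
      rw [← map_add]
      simp
    have hg1e : ∀ (x : Fin (m + 1) → D) (w : W),
        e (g1 (e.symm (x, w))) = (x + bb w, dd w) := by
      intro x w
      rw [hdec, map_add, k5, map_add, ← hes, LinearEquiv.apply_symm_apply]
      ext1
      · simp [hbb]
      · simp [hdd]
    have hg1e' : ∀ (x : Fin (m + 1) → D) (w : W),
        e (g1' (e.symm (x, w))) = (x + bb' w, dd' w) := by
      intro x w
      rw [hdec, map_add, k6, map_add, ← hes, LinearEquiv.apply_symm_apply]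
      ext1
      · simp [hbb']
      · simp [hdd']
    have hdd1 : dd * dd' = 1 := by
      apply LinearMap.ext
      intro w
      have e1 : g1' (e.symm (0, w)) = e.symm (0 + bb' w, dd' w) := by
        rw [← hg1e', LinearEquiv.symm_apply_apply]
      have e2 : e (g1 (g1' (e.symm (0, w)))) = (0, w) := by
        rw [← Module.End.mul_apply g1, k1]
        simp
      rw [e1, hg1e] at e2
      exact congrArg Prod.snd e2
    have hdd2 : dd' * dd = 1 := by
      apply LinearMap.ext
      intro w
      have e1 : g1 (e.symm (0, w)) = e.symm (0 + bb w, dd w) := by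
        rw [← hg1e, LinearEquiv.symm_apply_apply]
      have e2 : e (g1' (g1 (e.symm (0, w)))) = (0, w) := by
        rw [← Module.End.mul_apply g1', k2]
        simp
      rw [e1, hg1e'] at e2
      exact congrArg Prod.snd e2
    have hAe : ∀ (x : Fin (m + 1) → D) (w : W),
        e (A (e.symm (x, w))) = (S m x, A'' w) := by
      intro x w
      rw [hA'', e_blk, LinearEquiv.apply_symm_apply]
    have hcomm : ∀ w : W,
        bb (A'' w) = S m (bb w) ∧ dd (A'' w) = A'' (dd w) := by
      intro w
      have e1 : e ((g1 * A) (e.symm (0, w))) = (bb (A'' w), dd (A'' w)) := by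
        have : A (e.symm (0, w)) = e.symm (0, A'' w) := by
          apply e.injective
          rw [hAe, LinearEquiv.apply_symm_apply, map_zero]
        rw [Module.End.mul_apply, this, hg1e, zero_add]
      have e2 : e ((A * g1) (e.symm (0, w))) = (S m (bb w), A'' (dd w)) := by
        have : g1 (e.symm (0, w)) = e.symm (bb w, dd w) := by
          apply e.injective
          rw [hg1e, LinearEquiv.apply_symm_apply, zero_add]
        rw [Module.End.mul_apply, this, hAe]
      rw [k3, e2] at e1
      exact ⟨(congrArg Prod.fst e1).symm, (congrArg Prod.snd e1).symm⟩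
    have hddA : dd * A'' = A'' * dd := LinearMap.ext fun w => (hcomm w).2
    set θ : Module.End D V := e.symm.toLinearMap ∘ₗ
      LinearMap.inl D (Fin (m + 1) → D) W ∘ₗ bb ∘ₗ
      LinearMap.snd D _ _ ∘ₗ e.toLinearMap with hθ
    have hθe : ∀ u, e (θ u) = (bb (e u).2, 0) := by
      intro u
      rw [hθ]
      simp
    have hθ2 : θ ^ 2 = 0 := by
      rw [sq]
      apply LinearMap.ext
      intro u
      apply e.injective
      rw [Module.End.mul_apply, hθe, hθe]
      simp
    have hθA : θ * A = A * θ := by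
      apply LinearMap.ext
      intro u
      apply e.injective
      rw [Module.End.mul_apply, Module.End.mul_apply, hθe]
      have e1 : A (θ u) = A (e.symm (bb (e u).2, 0)) := by
        congr 1
      rw [e1, hAe, map_zero]
      have e2 : (e (A u)).2 = A'' (e u).2 := by
        conv_lhs => rw [← e.symm_apply_apply u]
        rw [show e u = ((e u).1, (e u).2) from rfl, hAe]
      rw [e2, (hcomm _).1]
    have hfin : g1 = blk e 1 dd * (1 + θ) := by
      apply LinearMap.ext
      intro u
      apply e.injective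
      rw [Module.End.mul_apply (blk e 1 dd), e_blk]
      have e1 : e ((1 + θ) u) = ((e u).1 + bb (e u).2, (e u).2) := by
        rw [LinearMap.add_apply, map_add, hθe]
        ext1 <;> simp
      rw [e1]
      conv_lhs => rw [← e.symm_apply_apply u]
      rw [show e u = ((e u).1, (e u).2) from rfl, hg1e]
      rfl
    have hlt : finrank D W < n := by
      have := LinearEquiv.finrank_eq e
      rw [finrank_prod, hn] at this
      simp at this
      omega
    have hnil : IsNilpotent A'' := by
      refine ⟨m + 1, ?_⟩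
      have h := hm1
      rw [hA'', blk_pow, ← finrank_range_eq_zero, finrank_blk] at h
      rw [← finrank_range_eq_zero]
      omega
    have hgood := ih _ hlt W A'' dd dd' rfl hnil hdd1 hdd2 hddA
    have hgood2 := hgood.blk e (S m)
    rw [← hA''] at hgood2
    rw [hfin]
    exact hgood2.mul (Good.unip hθA hθ2)

end Pool.Agent.R706.QR
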