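import Mathlib

/-!
Weakly continuous paths of endomorphisms of finite dimensional left vector spaces over the
quaternions, block-diagonal endomorphisms, and the relation of being joined by a chain of paths of
`p`-th roots.
-/

set_option linter.unusedSectionVars false

noncomputable section

namespace Pool.Agent.R706.QR

open Quaternion

/-- the real quaternions -/
abbrev D : Type := ℍ[ℝ]

section basics

variable {V : Type} [AddCommGroup V] [Module D V] [Module ℝ V] [IsScalarTower ℝ D V]
variable {W : Type} [AddCommGroup W] [Module D W] [Module ℝ W] [IsScalarTower ℝ D W]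
variable {U : Type} [AddCommGroup U] [Module D U] [Module ℝ U] [IsScalarTower ℝ D U]

/-- weak continuity of a family of endomorphisms -/
def WCont (γ : ℝ → Module.End D V) : Prop :=
  ∀ (v : V) (l : V →ₗ[D] D), Continuous fun s => l (γ s v)

theorem WCont.const (T : Module.End D V) : WCont (fun _ : ℝ => T) :=
  fun _ _ => continuous_const

theorem WCont.add {γ δ : ℝ → Module.End D V} (h : WCont γ) (h' : WCont δ) :
    WCont (fun s => γ s + δ s) := by
  intro v l
  have : (fun s => l ((γ s + δ s) v)) = fun s => l (γ s v) + l (δ s v) := by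
    funext s
    rw [LinearMap.add_apply, map_add]
  rw [this]
  exact (h v l).add (h' v l)

theorem WCont.sum {ι : Type} (t : Finset ι) (γ : ι → ℝ → Module.End D V)
    (h : ∀ i ∈ t, WCont (γ i)) : WCont (fun s => ∑ i ∈ t, γ i s) := by
  intro v l
  simp only [LinearMap.sum_apply, map_sum]
  exact continuous_finsetSum _ fun i hi => h i hi v l

theorem real_smul_apply (l : V →ₗ[D] D) (c : ℝ) (v : V) : l (c • v) = c • l v := by
  have h : (c • v : V) = (c • (1 : D)) • v := by
    rw [smul_assoc, one_smul]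
  rw [h, map_smul, smul_assoc, one_smul]

theorem WCont.smul {c : ℝ → ℝ} (hc : Continuous c) {γ : ℝ → Module.End D V} (h : WCont γ) :
    WCont (fun s => c s • γ s) := by
  intro v l
  have : (fun s => l ((c s • γ s) v)) = fun s => c s • l (γ s v) := by
    funext s
    rw [LinearMap.smul_apply, real_smul_apply]
  rw [this]
  exact hc.smul (h v l)

theorem WCont.mul [Module.Finite D V] {γ δ : ℝ → Module.End D V} (h : WCont γ) (h' : WCont δ) :
    WCont (fun s => γ s * δ s) := by
  intro v l
  classical
  let b := Module.finBasis D V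
  have key : ∀ s, l ((γ s * δ s) v) = ∑ i, (b.coord i (δ s v)) • l (γ s (b i)) := by
    intro s
    have h1 : δ s v = ∑ i, b.coord i (δ s v) • b i := by
      simp
    rw [Module.End.mul_apply]
    calc l (γ s (δ s v)) = l (γ s (∑ i, b.coord i (δ s v) • b i)) := by rw [← h1]
      _ = _ := by simp only [map_sum, map_smul]
  simp only [key]
  refine continuous_finsetSum _ fun i _ => ?_
  exact (h' v (b.coord i)).smul (h (b i) l)

theorem WCont.comp_right {γ : ℝ → Module.End D V} (h : WCont γ) {f : ℝ → ℝ}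
    (hf : Continuous f) : WCont (fun s => γ (f s)) :=
  fun v l => (h v l).comp hf

/-! ### block diagonal endomorphisms -/

/-- `T ⊕ R` transported along `e : V ≃ U × W`. -/
def blk (e : V ≃ₗ[D] U × W) (T : Module.End D U) (R : Module.End D W) : Module.End D V :=
  e.symm.toLinearMap ∘ₗ (LinearMap.prodMap T R) ∘ₗ e.toLinearMap

theorem blk_apply (e : V ≃ₗ[D] U × W) (T : Module.End D U) (R : Module.End D W) (v : V) :
    blk e T R v = e.symm (T (e v).1, R (e v).2) := rfl

theorem e_blk (e : V ≃ₗ[D] U × W) (T : Module.End D U) (R : Module.End D W) (v : V) :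
    e (blk e T R v) = (T (e v).1, R (e v).2) := by
  rw [blk_apply, LinearEquiv.apply_symm_apply]

theorem blk_mul (e : V ≃ₗ[D] U × W) (T T' : Module.End D U) (R R' : Module.End D W) :
    blk e T R * blk e T' R' = blk e (T * T') (R * R') := by
  ext v
  apply e.injective
  simp [Module.End.mul_apply, e_blk]

theorem blk_one (e : V ≃ₗ[D] U × W) : blk e 1 1 = 1 := by
  ext v
  apply e.injective
  simp [e_blk]

theorem blk_pow (e : V ≃ₗ[D] U × W) (T : Module.End D U) (R : Module.End D W) (k : ℕ) :
    (blk e T R) ^ k = blk e (T ^ k) (R ^ k) := by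
  induction k with
  | zero => simp [blk_one]
  | succ k ih => rw [pow_succ, ih, blk_mul, ← pow_succ, ← pow_succ]

theorem eq_blk_of (e : V ≃ₗ[D] U × W) (T : Module.End D U) (R : Module.End D W)
    (X : Module.End D V) (h : ∀ v, e (X v) = (T (e v).1, R (e v).2)) : X = blk e T R := by
  ext v
  apply e.injective
  rw [h, e_blk]

theorem blk_inj (e : V ≃ₗ[D] U × W) {T T' : Module.End D U} {R R' : Module.End D W}
    (h : blk e T R = blk e T' R') : T = T' ∧ R = R' := by
  constructor
  · ext u
    have := congrArg (fun X => (e (X (e.symm (u, 0)))).1) h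
    simpa [e_blk] using this
  · ext w
    have := congrArg (fun X => (e (X (e.symm (0, w)))).2) h
    simpa [e_blk] using this

theorem WCont.blk (e : V ≃ₗ[D] U × W) (T : Module.End D U) {γ : ℝ → Module.End D W}
    (h : WCont γ) : WCont (fun s => blk e T (γ s)) := by
  intro v l
  have key : ∀ s, l (QR.blk e T (γ s) v) = l (e.symm (T (e v).1, 0)) +
      (l ∘ₗ e.symm.toLinearMap ∘ₗ LinearMap.inr D U W) (γ s (e v).2) := by
    intro s
    rw [blk_apply]
    simp only [LinearMap.comp_apply, LinearMap.inr_apply, LinearEquiv.coe_coe]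
    rw [← map_add, ← map_add]
    simp
  simp only [key]
  exact continuous_const.add (h _ _)

/-! ### the relations -/

/-- one path of `p`-th roots of `A` from `X` to `Y` -/
def P1 (p : ℕ) (A X Y : Module.End D V) : Prop :=
  ∃ γ : ℝ → Module.End D V, WCont γ ∧ γ 0 = X ∧ γ 1 = Y ∧ ∀ s, (γ s) ^ p = A

theorem P1.symm {p : ℕ} {A X Y : Module.End D V} (h : P1 p A X Y) : P1 p A Y X := by
  obtain ⟨γ, h1, h2, h3, h4⟩ := h
  refine ⟨fun s => γ (1 - s), h1.comp_right (by fun_prop), by simp [h3], by simp [h2],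
    fun s => h4 _⟩

/-- chains of paths -/
def Conn (p : ℕ) (A : Module.End D V) : Module.End D V → Module.End D V → Prop :=
  Relation.ReflTransGen (P1 p A)

theorem Conn.symm {p : ℕ} {A X Y : Module.End D V} (h : Conn p A X Y) : Conn p A Y X := by
  induction h with
  | refl => exact Relation.ReflTransGen.refl
  | tail _ h2 ih => exact Relation.ReflTransGen.head h2.symm ih

theorem Conn.trans {p : ℕ} {A X Y Z : Module.End D V} (h : Conn p A X Y)
    (h' : Conn p A Y Z) : Conn p A X Z := Relation.ReflTransGen.trans h h'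

theorem P1.conn {p : ℕ} {A X Y : Module.End D V} (h : P1 p A X Y) : Conn p A X Y :=
  Relation.ReflTransGen.single h

theorem Conn.pow_eq {p : ℕ} {A X Y : Module.End D V} (h : Conn p A X Y) (hX : X ^ p = A) :
    Y ^ p = A := by
  induction h with
  | refl => exact hX
  | tail _ h2 _ =>
    obtain ⟨γ, _, _, h3, h4⟩ := h2
    rw [← h3]; exact h4 1

theorem Conn.blk {p : ℕ} (e : V ≃ₗ[D] U × W) (T : Module.End D U) {A X Y : Module.End D W}
    (h : Conn p A X Y) : Conn p (blk e (T ^ p) A) (blk e T X) (blk e T Y) := by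
  induction h with
  | refl => exact Relation.ReflTransGen.refl
  | tail _ h2 ih =>
    refine ih.tail ?_
    obtain ⟨γ, h1, h2, h3, h4⟩ := h2
    refine ⟨fun s => QR.blk e T (γ s), h1.blk e T, by simp [h2], by simp [h3], fun s => ?_⟩
    rw [blk_pow, h4]

/-- `g` is joined to `1` inside the centralizer of `A` in the unit group -/
def Good (A g : Module.End D V) : Prop :=
  ∃ γ γ' : ℝ → Module.End D V, WCont γ ∧ WCont γ' ∧ (∀ s, γ s * γ' s = 1) ∧
    (∀ s, γ' s * γ s = 1) ∧ (∀ s, γ s * A = A * γ s) ∧ γ 0 = 1 ∧ γ 1 = g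

theorem Good.one (A : Module.End D V) : Good A 1 :=
  ⟨fun _ => 1, fun _ => 1, WCont.const _, WCont.const _, by simp, by simp, by simp, rfl, rfl⟩

theorem Good.mul [Module.Finite D V] {A g h : Module.End D V} (hg : Good A g) (hh : Good A h) :
    Good A (g * h) := by
  obtain ⟨γ, γ', a1, a2, a3, a4, a5, a6, a7⟩ := hg
  obtain ⟨δ, δ', b1, b2, b3, b4, b5, b6, b7⟩ := hh
  refine ⟨fun s => γ s * δ s, fun s => δ' s * γ' s, a1.mul b1, b2.mul a2, fun s => ?_,
    fun s => ?_, fun s => ?_, by simp [a6, b6], by simp [a7, b7]⟩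
  · calc γ s * δ s * (δ' s * γ' s) = γ s * (δ s * δ' s) * γ' s := by noncomm_ring
      _ = 1 := by rw [b3, mul_one, a3]
  · calc δ' s * γ' s * (γ s * δ s) = δ' s * (γ' s * γ s) * δ s := by noncomm_ring
      _ = 1 := by rw [a4, mul_one, b4]
  · rw [mul_assoc, b5, ← mul_assoc, a5, mul_assoc]

theorem Good.blk (e : V ≃ₗ[D] U × W) (T : Module.End D U) {A g : Module.End D W}
    (h : Good A g) : Good (blk e T A) (blk e 1 g) := by
  obtain ⟨γ, γ', a1, a2, a3, a4, a5, a6, a7⟩ := h
  refine ⟨fun s => QR.blk e 1 (γ s), fun s => QR.blk e 1 (γ' s), a1.blk e 1, a2.blk e 1,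
    fun s => ?_, fun s => ?_, fun s => ?_, by simp [a6, blk_one], by simp [a7]⟩
  · rw [blk_mul, a3, one_mul, blk_one]
  · rw [blk_mul, a4, one_mul, blk_one]
  · rw [blk_mul, blk_mul, a5, one_mul, mul_one]

/-- conjugating by a good element stays in the same chain component -/
theorem Good.conn [Module.Finite D V] {p : ℕ} {A g g' X : Module.End D V} (h : Good A g)
    (hg : g' * g = 1) (hX : X ^ p = A) : P1 p A X (g * X * g') := by
  obtain ⟨γ, γ', a1, a2, a3, a4, a5, a6, a7⟩ := h
  have h0 : γ' 0 = 1 := by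
    have := a3 0
    rwa [a6, one_mul] at this
  have h1 : γ' 1 = g' := by
    have := a3 1
    rw [a7] at this
    calc γ' 1 = (g' * g) * γ' 1 := by rw [hg, one_mul]
      _ = g' := by rw [mul_assoc, this, mul_one]
  refine ⟨fun s => γ s * X * γ' s, (a1.mul (WCont.const X)).mul a2, by simp [a6, h0],
    by simp [a7, h1], fun s => ?_⟩
  have hk : ∀ k : ℕ, (γ s * X * γ' s) ^ k = γ s * X ^ k * γ' s := by
    intro k
    induction k with
    | zero => simp [a3]
    | succ k ih =>
      rw [pow_succ, ih]
      calc γ s * X ^ k * γ' s * (γ s * X * γ' s)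
          = γ s * X ^ k * (γ' s * γ s) * X * γ' s := by noncomm_ring
        _ = γ s * X ^ (k + 1) * γ' s := by rw [a4, mul_one, pow_succ]; noncomm_ring
  rw [hk, hX, a5, mul_assoc, a3, mul_one]

/-- unipotent elements are good -/
theorem Good.unip [Module.Finite D V] {A Ψ : Module.End D V} (hc : Ψ * A = A * Ψ) {K : ℕ}
    (hn : Ψ ^ K = 0) : Good A (1 + Ψ) := by
  have hs : ∀ s : ℝ, ((-s) • Ψ) ^ K = 0 := by
    intro s
    rw [smul_pow, hn, smul_zero]
  refine ⟨fun s => 1 + s • Ψ, fun s => ∑ i ∈ Finset.range K, ((-s) ^ i) • Ψ ^ i, ?_, ?_, ?_, ?_, ?_,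
    by simp, by simp⟩
  · exact (WCont.const _).add (WCont.smul continuous_id (WCont.const _))
  · refine WCont.sum _ (fun i s => ((-s) ^ i) • Ψ ^ i) fun i _ => ?_
    exact WCont.smul (c := fun s => (-s) ^ i) (by fun_prop) (WCont.const _)
  · intro s
    have := mul_neg_geom_sum ((-s) • Ψ) K
    rw [hs, sub_zero] at this
    simp only [smul_pow] at this
    rw [neg_smul, sub_neg_eq_add] at this
    exact this
  · intro s
    have := geom_sum_mul_neg ((-s) • Ψ) K
    rw [hs, sub_zero] at this
    simp only [smul_pow] at this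
    rw [neg_smul, sub_neg_eq_add] at this
    exact this
  · intro s
    rw [add_mul, mul_add, one_mul, mul_one, smul_mul_assoc, mul_smul_comm, hc]

end basics

end Pool.Agent.R706.QR
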