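import Pool.Agent.R706.QR.Aut

/-!
Any two `p`-th roots of a nilpotent endomorphism over the quaternions are joined by a chain of
paths of `p`-th roots.
-/

set_option linter.unusedSectionVars false

noncomputable section

namespace Pool.Agent.R706.QR

open Quaternion Module

section exch

variable {V : Type} [AddCommGroup V] [Module D V] [Module ℝ V] [IsScalarTower ℝ D V]
  [Module.Finite D V]

/-- the rank one operators -/
def F (X : Module.End D V) (l : V →ₗ[D] D) (v : V) (i j : ℕ) : Module.End D V :=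
  (l ∘ₗ (X ^ j)).smulRight ((X ^ i) v)

theorem F_apply (X : Module.End D V) (l : V →ₗ[D] D) (v : V) (i j : ℕ) (u : V) :
    F X l v i j u = l ((X ^ j) u) • (X ^ i) v := rfl

theorem X_F (X : Module.End D V) (l : V →ₗ[D] D) (v : V) (i j k : ℕ) :
    X ^ k * F X l v i j = F X l v (i + k) j := by
  apply LinearMap.ext
  intro u
  rw [Module.End.mul_apply, F_apply, F_apply, map_smul, ← Module.End.mul_apply, ← pow_add,
    add_comm]

theorem F_X (X : Module.End D V) (l : V →ₗ[D] D) (v : V) (i j k : ℕ) :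
    F X l v i j * X ^ k = F X l v i (j + k) := by
  apply LinearMap.ext
  intro u
  rw [Module.End.mul_apply, F_apply, F_apply, ← Module.End.mul_apply, ← pow_add]

theorem F_F {X : Module.End D V} {l : V →ₗ[D] D} {v : V} (h : ∀ i, l ((X ^ i) v) = 0)
    (i j i' j' : ℕ) : F X l v i j * F X l v i' j' = 0 := by
  apply LinearMap.ext
  intro u
  rw [Module.End.mul_apply, F_apply, F_apply, map_smul, map_smul, ← Module.End.mul_apply,
    ← pow_add, h]
  simp

theorem exchange {X : Module.End D V} {v w : V} {l : V →ₗ[D] D} {p q b M : ℕ} (hp : 1 ≤ p)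
    (hlv : ∀ i, l ((X ^ i) v) = 0) (hlb : ∀ u, l ((X ^ (b + 1)) u) = 0)
    (hM : M + 1 < p * (q + 1)) (hb : p * q ≤ b) (hw : l ((X ^ b) w) = 1)
    (hXM : X ^ (M + 1) = 0) (hv : (X ^ M) v ≠ 0) :
    ∃ X1, P1 p (X ^ p) X X1 ∧ X1 ^ (M + 1) ≠ 0 := by
  have hX0 : ∀ j, M + 1 ≤ j → X ^ j = 0 := fun j hj => by
    obtain ⟨c, rfl⟩ := Nat.exists_eq_add_of_le hj
    rw [pow_add, hXM, zero_mul]
  set N := F X l v 0 b with hN
  have hNX : ∀ k, N * X ^ (k + 1) = 0 := by
    intro k
    rw [hN, F_X]
    apply LinearMap.ext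
    intro u
    rw [F_apply, show b + (k + 1) = (b + 1) + k by omega, pow_add, Module.End.mul_apply, hlb]
    simp
  set G : ℕ → Module.End D V := fun k => F X l v ((k + 1) * p - 1) (b - k * p) with hG
  set φ : Module.End D V :=
    -∑ k ∈ Finset.range q, F X l v ((k + 1) * p - 1) (b - (k + 1) * p) with hφ
  have h1 : X ^ p * φ = -∑ k ∈ Finset.range q, G (k + 1) := by
    rw [hφ, mul_neg, Finset.mul_sum]
    congr 1
    refine Finset.sum_congr rfl fun k _ => ?_
    rw [X_F, hG]
    have : (k + 1) * p - 1 + p = (k + 1 + 1) * p - 1 := by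
      have : 1 ≤ (k + 1) * p := Nat.le_trans hp (Nat.le_mul_of_pos_left p (by omega))
      rw [Nat.add_mul (k + 1) 1 p, one_mul]
      omega
    simp only [this]
  have h2 : φ * X ^ p = -∑ k ∈ Finset.range q, G k := by
    rw [hφ, neg_mul, Finset.sum_mul]
    congr 1
    refine Finset.sum_congr rfl fun k hk => ?_
    rw [F_X, hG]
    have : b - (k + 1) * p + p = b - k * p := by
      have hk' : k + 1 ≤ q := by simpa using hk
      have : (k + 1) * p ≤ b := by
        calc (k + 1) * p ≤ q * p := Nat.mul_le_mul_right p hk'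
          _ = p * q := Nat.mul_comm _ _
          _ ≤ b := hb
      have h3 : (k + 1) * p = k * p + p := by ring
      omega
    simp only [this]
  have hG0 : G 0 = X ^ (p - 1) * N := by
    rw [hG, hN, X_F]
    simp
  have hGq : G q = 0 := by
    apply LinearMap.ext
    intro u
    rw [hG]
    simp only
    rw [F_apply, hX0 ((q + 1) * p - 1) (by rw [Nat.mul_comm]; omega)]
    simp
  have hτ : X ^ p * φ - φ * X ^ p = X ^ (p - 1) * N := by
    rw [h1, h2, ← hG0]
    have := Finset.sum_range_sub' G q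
    rw [hGq, sub_zero, Finset.sum_sub_distrib] at this
    rw [← this]
    abel
  have hφφ : φ * φ = 0 := by
    rw [hφ, neg_mul_neg, Finset.sum_mul_sum]
    refine Finset.sum_eq_zero fun i _ => Finset.sum_eq_zero fun j _ => F_F hlv _ _ _ _
  have hφτ : φ * (X ^ (p - 1) * N) = 0 := by
    rw [hN, X_F, hφ, neg_mul, Finset.sum_mul]
    rw [neg_eq_zero]
    exact Finset.sum_eq_zero fun i _ => F_F hlv _ _ _ _
  have hpow : ∀ (s : ℝ) (k : ℕ), (X + s • N) ^ (k + 1) = X ^ (k + 1) + s • (X ^ k * N) := by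
    intro s k
    induction k with
    | zero => simp
    | succ k ih =>
      rw [pow_succ', ih, add_mul, mul_add, mul_add]
      have e1 : (s • N) * X ^ (k + 1) = 0 := by rw [smul_mul_assoc, hNX, smul_zero]
      have e2 : (s • N) * (s • (X ^ k * N)) = 0 := by
        rw [smul_mul_assoc, mul_smul_comm, ← mul_assoc]
        have : N * X ^ k * N = 0 := by
          rcases k with - | k
          · rw [pow_zero, mul_one, hN, F_F hlv]
          · rw [hNX, zero_mul]
        rw [this, smul_zero, smul_zero]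
      rw [e1, e2, mul_smul_comm, ← mul_assoc, ← pow_succ', ← pow_succ']
      abel
  have hinv : ∀ s : ℝ, (1 - s • φ) * (1 + s • φ) = 1 := by
    intro s
    rw [sub_mul, mul_add, mul_add, one_mul, mul_one, one_mul, smul_mul_assoc,
      mul_smul_comm, hφφ]
    simp
  have hinv' : ∀ s : ℝ, (1 + s • φ) * (1 - s • φ) = 1 := by
    intro s
    rw [add_mul, mul_sub, mul_sub, one_mul, mul_one, one_mul, smul_mul_assoc,
      mul_smul_comm, hφφ]
    simp
  have hconj : ∀ (s : ℝ) (Z : Module.End D V) (k : ℕ),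
      ((1 + s • φ) * Z * (1 - s • φ)) ^ k = (1 + s • φ) * Z ^ k * (1 - s • φ) := by
    intro s Z k
    induction k with
    | zero => rw [pow_zero, pow_zero, mul_one, hinv']
    | succ k ih =>
      rw [pow_succ, ih]
      calc (1 + s • φ) * Z ^ k * (1 - s • φ) * ((1 + s • φ) * Z * (1 - s • φ))
          = (1 + s • φ) * Z ^ k * ((1 - s • φ) * (1 + s • φ)) * Z * (1 - s • φ) := by
            simp only [mul_assoc]
        _ = (1 + s • φ) * Z ^ (k + 1) * (1 - s • φ) := by
            rw [hinv, mul_one, pow_succ, ← mul_assoc]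
  refine ⟨(1 + (1 : ℝ) • φ) * (X + (1 : ℝ) • N) * (1 - (1 : ℝ) • φ),
    ⟨fun s => (1 + s • φ) * (X + s • N) * (1 - s • φ), ?_, by simp, by simp, fun s => ?_⟩, ?_⟩
  · refine (((WCont.const _).add (WCont.smul continuous_id (WCont.const _))).mul
      ((WCont.const _).add (WCont.smul continuous_id (WCont.const _)))).mul ?_
    have : (fun s : ℝ => 1 - s • φ) = fun s : ℝ => 1 + (-s) • φ := by
      funext s
      rw [neg_smul, sub_eq_add_neg]
    rw [this]
    exact (WCont.const _).add (WCont.smul continuous_neg (WCont.const _))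
  · rw [hconj]
    obtain ⟨p', rfl⟩ : ∃ p', p = p' + 1 := ⟨p - 1, by omega⟩
    rw [hpow]
    simp only [Nat.add_sub_cancel] at hτ hφτ
    have e1 : (1 + s • φ) * (X ^ (p' + 1) + s • (X ^ p' * N)) =
        X ^ (p' + 1) * (1 + s • φ) := by
      rw [add_mul, mul_add, mul_add, one_mul, one_mul, smul_mul_assoc, smul_mul_assoc,
        mul_smul_comm, hφτ, smul_zero, smul_zero, add_zero, ← hτ, smul_sub, mul_add, mul_one,
        mul_smul_comm]
      abel
    rw [e1, mul_assoc, hinv', mul_one]
  · intro h0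
    rw [hconj, hpow] at h0
    have h3 : X ^ (M + 1) + (1 : ℝ) • (X ^ M * N) = 0 := by
      calc X ^ (M + 1) + (1 : ℝ) • (X ^ M * N)
          = ((1 - (1 : ℝ) • φ) * (1 + (1 : ℝ) • φ)) * (X ^ (M + 1) + (1 : ℝ) • (X ^ M * N)) *
            ((1 - (1 : ℝ) • φ) * (1 + (1 : ℝ) • φ)) := by rw [hinv]; simp
        _ = (1 - (1 : ℝ) • φ) * ((1 + (1 : ℝ) • φ) * (X ^ (M + 1) + (1 : ℝ) • (X ^ M * N)) *
            (1 - (1 : ℝ) • φ)) * (1 + (1 : ℝ) • φ) := by simp only [mul_assoc]
        _ = 0 := by rw [h0]; simp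
    rw [hXM, zero_add, one_smul] at h3
    apply hv
    have := congrArg (fun T : Module.End D V => T w) h3
    simp only [Module.End.mul_apply, LinearMap.zero_apply, hN, F_apply, hw, pow_zero,
      Module.End.one_apply, one_smul] at this
    exact this

theorem pow_ne_lt {X : Module.End D V} {a b : ℕ} (ha : X ^ a ≠ 0) (hb : X ^ b = 0) : a < b := by
  by_contra h
  push Not at h
  obtain ⟨c, rfl⟩ := Nat.exists_eq_add_of_le h
  apply ha
  rw [pow_add, hb, zero_mul]

theorem climb {A X Y : Module.End D V} {p q m m' : ℕ} (hp : 1 ≤ p) (hX : X ^ p = A)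
    (hY : Y ^ p = A) (hq1 : A ^ (q + 1) = 0) (hq2 : A ^ q ≠ 0) (hm1 : X ^ (m + 1) = 0)
    (hm2 : X ^ m ≠ 0) (hm1' : Y ^ (m' + 1) = 0) (hm2' : Y ^ m' ≠ 0) (hlt : m < m') :
    ∃ X1, P1 p A X X1 ∧ X1 ^ (m + 1) ≠ 0 := by
  have hYq : Y ^ (p * (q + 1)) = 0 := by rw [pow_mul, hY, hq1]
  have hXq : X ^ (p * q) ≠ 0 := by rw [pow_mul, hX]; exact hq2
  have hM : m + 1 < p * (q + 1) := by
    have := pow_ne_lt hm2' hYq
    omega
  have hpq : p * q < m + 1 := pow_ne_lt hXq hm1
  obtain ⟨W, e, X'', hX''⟩ := exists_split hm1 hm2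
  obtain ⟨W', e', Y'', hY''⟩ := exists_split hm1' hm2'
  have hXY : X ^ (p * q) = Y ^ (p * q) := by rw [pow_mul, pow_mul, hX, hY]
  have hr : finrank D (LinearMap.range (X ^ (p * q))) =
      finrank D (LinearMap.range (Y ^ (p * q))) := by rw [hXY]
  have hW : X'' ^ (p * q) ≠ 0 := by
    rw [hX'', hY'', blk_pow, blk_pow, finrank_blk, finrank_blk, finrank_S_pow _ _ (by omega),
      finrank_S_pow _ _ (by omega)] at hr
    intro h
    rw [← finrank_range_eq_zero] at h
    omega
  have h1W : (1 : Module.End D W) ≠ 0 := by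
    intro h
    apply hW
    calc X'' ^ (p * q) = X'' ^ (p * q) * 1 := (mul_one _).symm
      _ = 0 := by rw [h, mul_zero]
  have hnil : X'' ^ (m + 1) = 0 := by
    have h := hm1
    rw [hX'', blk_pow, ← finrank_range_eq_zero, finrank_blk] at h
    rw [← finrank_range_eq_zero]
    omega
  obtain ⟨b, hb1, hb2⟩ := exists_index ⟨_, hnil⟩ h1W
  have hpb : p * q < b + 1 := pow_ne_lt hW hb1
  obtain ⟨w, hw⟩ : ∃ w, (X'' ^ b) w ≠ 0 := by
    by_contra hcon
    push Not at hcon
    exact hb2 (LinearMap.ext hcon)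
  obtain ⟨l, hl⟩ := exists_functional hw
  have hXe : ∀ k u, e ((X ^ k) u) = (((S m) ^ k) (e u).1, (X'' ^ k) (e u).2) := by
    intro k u
    conv_lhs => rw [hX'']
    rw [blk_pow, e_blk]
  have := exchange (X := X) (v := e.symm (Pi.single 0 1, 0)) (w := e.symm (0, w))
    (l := l ∘ₗ LinearMap.snd D _ _ ∘ₗ e.toLinearMap) (p := p) (q := q) (b := b) (M := m) hp
    ?_ ?_ hM (by omega) ?_ hm1 ?_
  · rwa [hX] at this
  · intro i
    simp [hXe]
  · intro u
    simp [hXe, hb1]
  · simp [hXe, hl]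
  · intro h
    have h2 := congrArg (fun x => (e x).1 (Fin.last m)) h
    simp only [hXe, LinearEquiv.apply_symm_apply, map_zero, S_pow_apply] at h2
    rw [dif_pos (by simp)] at h2
    have h3 : (⟨((Fin.last m : Fin (m + 1)) : ℕ) - m, by simp⟩ : Fin (m + 1)) = 0 := by
      ext; simp
    rw [h3, Pi.single_eq_same] at h2
    exact one_ne_zero h2

theorem exists_max (P : ℕ → Prop) (N : ℕ) (h0 : P 0) (hN : ∀ m, N ≤ m → ¬ P m) :
    ∃ m, P m ∧ ∀ k, m < k → ¬ P k := by
  classical
  refine ⟨Nat.findGreatest P N, Nat.findGreatest_spec (Nat.zero_le _) h0, fun k hk => ?_⟩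
  rcases Nat.lt_or_ge k N with h | h
  · exact Nat.findGreatest_is_greatest hk h.le
  · exact hN k h

theorem zero_case {X : Module.End D V} {p : ℕ} (hX : X ^ p = 0) :
    Conn p 0 X 0 := by
  refine P1.conn ⟨fun s => (1 - s) • X, WCont.smul (by fun_prop) (WCont.const _), by simp,
    by simp, fun s => ?_⟩
  rw [smul_pow, hX, smul_zero]

end exch

theorem main_conn (n : ℕ) : ∀ (V : Type) [AddCommGroup V] [Module D V] [Module ℝ V]
    [IsScalarTower ℝ D V] [Module.Finite D V] (X Y : Module.End D V) (p : ℕ), 1 ≤ p →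
    finrank D V = n → IsNilpotent X → X ^ p = Y ^ p → Conn p (X ^ p) X Y := by
  induction n using Nat.strong_induction_on with
  | _ n ih =>
    intro V _ _ _ _ _ X Y p hp hn hnil hXY
    by_cases hA0 : X ^ p = 0
    · have h1 := zero_case hA0
      have h2 := zero_case (hXY ▸ hA0)
      rw [hA0]
      exact h1.trans h2.symm
    set A := X ^ p with hA
    have hone : (1 : Module.End D V) ≠ 0 := by
      intro h
      apply hA0
      calc A = A * 1 := (mul_one _).symm
        _ = 0 := by rw [h, mul_zero]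
    have hAnil : IsNilpotent A := by
      obtain ⟨k, hk⟩ := hnil
      refine ⟨k, ?_⟩
      rw [hA, ← pow_mul, mul_comm, pow_mul, hk, zero_pow (by omega)]
    obtain ⟨q, hq1, hq2⟩ := exists_index hAnil hone
    have hbd : ∀ Z : Module.End D V, Z ^ p = A → ∀ k, p * (q + 1) ≤ k → Z ^ k = 0 := by
      intro Z hZ k hk
      obtain ⟨c, rfl⟩ := Nat.exists_eq_add_of_le hk
      rw [pow_add, pow_mul, hZ, hq1, zero_mul]
    have hmax : ∀ Z : Module.End D V, Z ^ p = A → ∃ m, ∃ Z', Conn p A Z Z' ∧ Z' ^ (m + 1) = 0 ∧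
        Z' ^ m ≠ 0 ∧ ∀ Z'', Conn p A Z Z'' → Z'' ^ (m + 1) = 0 := by
      intro Z hZ
      obtain ⟨m, ⟨Z', h1, h2⟩, h3⟩ := exists_max (fun m => ∃ Z', Conn p A Z Z' ∧ Z' ^ m ≠ 0)
        (p * (q + 1)) ⟨Z, Relation.ReflTransGen.refl, by simpa using hone⟩
        (fun m hm ⟨Z', h1, h2⟩ => h2 (hbd Z' (h1.pow_eq hZ) m hm))
      have h4 : ∀ Z'', Conn p A Z Z'' → Z'' ^ (m + 1) = 0 := by
        intro Z'' hZ''
        by_contra hcon
        exact h3 (m + 1) (by omega) ⟨Z'', hZ'', hcon⟩
      exact ⟨m, Z', h1, h4 Z' h1, h2, h4⟩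
    obtain ⟨mX, X', hX1, hX2, hX3, hX4⟩ := hmax X rfl
    obtain ⟨mY, Y', hY1, hY2, hY3, hY4⟩ := hmax Y hXY.symm
    have hX'p : X' ^ p = A := hX1.pow_eq rfl
    have hY'p : Y' ^ p = A := hY1.pow_eq hXY.symm
    have hm : mX = mY := by
      rcases Nat.lt_trichotomy mX mY with h | h | h
      · obtain ⟨X1, h1, h2⟩ := climb hp hX'p hY'p hq1 hq2 hX2 hX3 hY2 hY3 h
        exact absurd (hX4 X1 (hX1.tail h1)) h2
      · exact h
      · obtain ⟨X1, h1, h2⟩ := climb hp hY'p hX'p hq1 hq2 hY2 hY3 hX2 hX3 h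
        exact absurd (hY4 X1 (hY1.tail h1)) h2
    subst hm
    obtain ⟨W, e, X'', hX''⟩ := exists_split hX2 hX3
    obtain ⟨W', e', Y'', hY''⟩ := exists_split hY2 hY3
    have hAe : A = blk e ((S mX) ^ p) (X'' ^ p) := by rw [← hX'p, hX'', blk_pow]
    have hAe' : A = blk e' ((S mX) ^ p) (Y'' ^ p) := by rw [← hY'p, hY'', blk_pow]
    have hlt : finrank D W < n := by
      have := LinearEquiv.finrank_eq e
      rw [finrank_prod, hn] at this
      simp at this
      omega
    have hnilX : X'' ^ (mX + 1) = 0 := by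
      have h := hX2
      rw [hX'', blk_pow, ← finrank_range_eq_zero, finrank_blk] at h
      rw [← finrank_range_eq_zero]
      omega
    have hnilXp : IsNilpotent (X'' ^ p) := by
      refine ⟨mX + 1, ?_⟩
      rw [← pow_mul, mul_comm, pow_mul, hnilX, zero_pow (by omega)]
    have hranks : ∀ k, finrank D (LinearMap.range ((X'' ^ p) ^ k)) =
        finrank D (LinearMap.range ((Y'' ^ p) ^ k)) := by
      intro k
      have h1 : finrank D (LinearMap.range (A ^ k)) = finrank D (LinearMap.range (A ^ k)) := rfl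
      conv_lhs at h1 => rw [hAe]
      conv_rhs at h1 => rw [hAe']
      rw [blk_pow, blk_pow, finrank_blk, finrank_blk] at h1
      omega
    obtain ⟨f, hf⟩ := sim _ W W' (X'' ^ p) (Y'' ^ p) rfl hnilXp hranks
    -- the transported endomorphism
    set Y3 : Module.End D W := f.symm.toLinearMap ∘ₗ Y'' ∘ₗ f.toLinearMap with hY3def
    have hY3f : ∀ w, f (Y3 w) = Y'' (f w) := by
      intro w
      rw [hY3def]
      simp
    have hY3k : ∀ k w, f ((Y3 ^ k) w) = (Y'' ^ k) (f w) := by
      intro k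
      induction k with
      | zero => simp
      | succ k ihk =>
        intro w
        rw [pow_succ, pow_succ, Module.End.mul_apply, Module.End.mul_apply, ihk, hY3f]
    have hY3p : Y3 ^ p = X'' ^ p := by
      apply LinearMap.ext
      intro w
      apply f.injective
      rw [hY3k, hf]
    have hconn1 : Conn p (X'' ^ p) X'' Y3 :=
      ih _ hlt W X'' Y3 p hp rfl ⟨_, hnilX⟩ hY3p.symm
    have hconn2 : Conn p A X' (blk e (S mX) Y3) := by
      have := hconn1.blk e (S mX)
      rwa [← hAe, ← hX''] at this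
    set E : V ≃ₗ[D] V := e.trans ((LinearEquiv.prodCongr (LinearEquiv.refl D _) f).trans e'.symm)
      with hE
    have hEv : ∀ u, e' (E u) = ((e u).1, f (e u).2) := by
      intro u
      rw [hE]
      simp only [LinearEquiv.trans_apply, LinearEquiv.apply_symm_apply]
      rfl
    set g : Module.End D V := E.toLinearMap with hg
    set g' : Module.End D V := E.symm.toLinearMap with hg'
    have hgg' : g * g' = 1 := by
      apply LinearMap.ext
      intro u
      simp [hg, hg']
    have hg'g : g' * g = 1 := by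
      apply LinearMap.ext
      intro u
      simp [hg, hg']
    have hgA : g * A = A * g := by
      apply LinearMap.ext
      intro u
      apply e'.injective
      have e1 : e' ((g * A) u) = (((S mX) ^ p) (e u).1, f ((X'' ^ p) (e u).2)) := by
        rw [Module.End.mul_apply]
        change e' (E (A u)) = _
        rw [hEv]
        have : e (A u) = (((S mX) ^ p) (e u).1, (X'' ^ p) (e u).2) := by
          rw [hAe, e_blk]
        rw [this]
      have e2 : e' ((A * g) u) = (((S mX) ^ p) (e u).1, (Y'' ^ p) (f (e u).2)) := by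
        rw [Module.End.mul_apply]
        change e' (A (E u)) = _
        have : e' (A (E u)) = (((S mX) ^ p) (e' (E u)).1, (Y'' ^ p) (e' (E u)).2) := by
          conv_lhs => rw [hAe']
          rw [e_blk]
        rw [this, hEv]
      rw [e1, e2, hf]
    have hgood := aut_good n V A g g' hn hAnil hgg' hg'g hgA
    have hY2p : (blk e (S mX) Y3) ^ p = A := by
      rw [blk_pow, hY3p, ← hAe]
    have hP := hgood.conn hg'g hY2p
    have hconj : g * blk e (S mX) Y3 * g' = Y' := by
      have h1 : g * blk e (S mX) Y3 = Y' * g := by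
        apply LinearMap.ext
        intro u
        apply e'.injective
        rw [Module.End.mul_apply, Module.End.mul_apply]
        change e' (E (blk e (S mX) Y3 u)) = e' (Y' (E u))
        rw [hEv, e_blk]
        conv_rhs => rw [hY'']
        rw [e_blk, hEv, hY3f]
      rw [h1, mul_assoc, hgg', mul_one]
    rw [hconj] at hP
    exact ((hX1.trans hconn2).trans hP.conn).trans hY1.symm

end Pool.Agent.R706.QR
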