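import Pool.Agent.R706.QR.Split

/-!
Nilpotent endomorphisms over the quaternions are classified by the ranks of their powers.
-/

set_option linter.unusedSectionVars false

noncomputable section

namespace Pool.Agent.R706.QR

open Quaternion Module

theorem finrank_blk {V U W : Type} [AddCommGroup V] [Module D V] [AddCommGroup U] [Module D U]
    [AddCommGroup W] [Module D W] [Module.Finite D U] [Module.Finite D W]
    (e : V ≃ₗ[D] U × W) (T : Module.End D U) (R : Module.End D W) :
    finrank D (LinearMap.range (blk e T R)) =
      finrank D (LinearMap.range T) + finrank D (LinearMap.range R) := by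
  have h1 : LinearMap.range (blk e T R) =
      ((LinearMap.range T).prod (LinearMap.range R)).map e.symm.toLinearMap := by
    unfold blk
    rw [LinearMap.range_comp, LinearMap.range_comp_of_range_eq_top _ (LinearEquiv.range e),
      LinearMap.range_prodMap]
  rw [h1]
  have h2 : finrank D (((LinearMap.range T).prod (LinearMap.range R)).map e.symm.toLinearMap) =
      finrank D ((LinearMap.range T).prod (LinearMap.range R)) :=
    LinearEquiv.finrank_map_eq e.symm _
  rw [h2]
  have h3 : (LinearMap.range T).prod (LinearMap.range R) =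
      LinearMap.range (LinearMap.prodMap (LinearMap.range T).subtype
        (LinearMap.range R).subtype) := by
    rw [LinearMap.range_prodMap, Submodule.range_subtype, Submodule.range_subtype]
  rw [h3, LinearMap.finrank_range_of_inj, finrank_prod]
  rintro ⟨⟨a, ha⟩, ⟨b, hb⟩⟩ ⟨⟨c, hc⟩, ⟨d, hd⟩⟩ h
  simp only [LinearMap.prodMap_apply, Submodule.subtype_apply, Prod.mk.injEq] at h
  obtain ⟨h5, h6⟩ := h
  subst h5; subst h6
  rfl

theorem S_pow_apply (m k : ℕ) (a : Fin (m + 1) → D) (i : Fin (m + 1)) :
    ((S m) ^ k) a i = if h : k ≤ (i : ℕ) then a ⟨(i : ℕ) - k, by omega⟩ else 0 := by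
  induction k generalizing i with
  | zero => simp
  | succ k ih =>
    rw [pow_succ', Module.End.mul_apply]
    refine Fin.cases ?_ (fun j => ?_) i
    · rw [S_zero]; simp
    · rw [S_succ, ih]
      simp only [Fin.val_castSucc, Fin.val_succ]
      by_cases h : k ≤ (j : ℕ)
      · rw [dif_pos h, dif_pos (by omega)]
        congr 2
        omega
      · rw [dif_neg h, dif_neg (by omega)]

theorem S_pow_succ (m : ℕ) : (S m) ^ (m + 1) = 0 := by
  apply LinearMap.ext
  intro a
  funext i
  rw [S_pow_apply, dif_neg (by omega)]
  rfl

theorem finrank_S_pow (m k : ℕ) (hk : k ≤ m + 1) :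
    finrank D (LinearMap.range ((S m) ^ k)) = m + 1 - k := by
  let res : (Fin (m + 1) → D) →ₗ[D] (Fin (m + 1 - k) → D) :=
    { toFun := fun a i => a ⟨i, by omega⟩
      map_add' := fun a b => rfl
      map_smul' := fun c a => rfl }
  let ext : (Fin (m + 1 - k) → D) →ₗ[D] (Fin (m + 1) → D) :=
    { toFun := fun b i => if h : k ≤ (i : ℕ) then b ⟨(i : ℕ) - k, by omega⟩ else 0
      map_add' := fun a b => by
        funext i
        by_cases h : k ≤ (i : ℕ) <;> simp [h]
      map_smul' := fun c a => by
        funext i
        by_cases h : k ≤ (i : ℕ) <;> simp [h] }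
  have h1 : (S m) ^ k = ext ∘ₗ res := by
    apply LinearMap.ext
    intro a
    funext i
    rw [S_pow_apply]
    rfl
  have h2 : LinearMap.range res = ⊤ := by
    rw [LinearMap.range_eq_top]
    intro b
    refine ⟨fun i => if h : (i : ℕ) < m + 1 - k then b ⟨i, h⟩ else 0, ?_⟩
    funext i
    change (if h : (i : ℕ) < m + 1 - k then b ⟨i, h⟩ else 0) = b i
    rw [dif_pos i.isLt]
  have h3 : Function.Injective ext := by
    intro b c hbc
    funext i
    have := congrFun hbc ⟨(i : ℕ) + k, by omega⟩
    change (if h : k ≤ (i : ℕ) + k then b ⟨(i : ℕ) + k - k, _⟩ else 0) =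
      (if h : k ≤ (i : ℕ) + k then c ⟨(i : ℕ) + k - k, _⟩ else 0) at this
    rw [dif_pos (by omega), dif_pos (by omega)] at this
    have e : (⟨(i : ℕ) + k - k, by omega⟩ : Fin (m + 1 - k)) = i := by
      ext; simp
    rwa [e] at this
  rw [h1, LinearMap.range_comp_of_range_eq_top _ h2, LinearMap.finrank_range_of_inj h3]
  simp

theorem finrank_range_eq_zero {V : Type} [AddCommGroup V] [Module D V] [Module.Finite D V]
    {T : Module.End D V} : finrank D (LinearMap.range T) = 0 ↔ T = 0 := by
  rw [Submodule.finrank_eq_zero, LinearMap.range_eq_bot]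

/-- the nilpotency index -/
theorem exists_index {V : Type} [AddCommGroup V] [Module D V] {A : Module.End D V}
    (hA : IsNilpotent A) (h1 : (1 : Module.End D V) ≠ 0) :
    ∃ m, A ^ (m + 1) = 0 ∧ A ^ m ≠ 0 := by
  classical
  obtain ⟨n, hn⟩ := hA
  have hex : ∃ n, A ^ n = 0 := ⟨n, hn⟩
  have h0 : Nat.find hex ≠ 0 := by
    intro h
    have := Nat.find_spec hex
    rw [h, pow_zero] at this
    exact h1 this
  obtain ⟨m, hm⟩ := Nat.exists_eq_succ_of_ne_zero h0
  refine ⟨m, ?_, ?_⟩
  · have := Nat.find_spec hex
    rwa [hm] at this
  · apply Nat.find_min hex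
    omega

theorem sim (n : ℕ) : ∀ (V W : Type) [AddCommGroup V] [Module D V] [Module ℝ V]
    [IsScalarTower ℝ D V] [AddCommGroup W] [Module D W] [Module ℝ W]
    [IsScalarTower ℝ D W] [Module.Finite D V] [Module.Finite D W]
    (A : Module.End D V) (B : Module.End D W), finrank D V = n → IsNilpotent A →
    (∀ k, finrank D (LinearMap.range (A ^ k)) = finrank D (LinearMap.range (B ^ k))) →
    ∃ f : V ≃ₗ[D] W, ∀ v, f (A v) = B (f v) := by
  induction n using Nat.strong_induction_on with
  | _ n ih =>
    intro V W _ _ _ _ _ _ _ _ _ _ A B hn hA hr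
    have hVW : finrank D V = finrank D W := by
      have := hr 0
      rw [pow_zero, pow_zero, Module.End.one_eq_id, Module.End.one_eq_id, LinearMap.range_id,
        LinearMap.range_id, finrank_top, finrank_top] at this
      exact this
    by_cases h1 : (1 : Module.End D V) = 0
    · -- V trivial
      have hV : ∀ v : V, v = 0 := fun v => by
        have := congrArg (fun T : Module.End D V => T v) h1
        simpa using this
      have : Subsingleton V := ⟨fun a b => by rw [hV a, hV b]⟩
      have h0 : finrank D V = 0 := finrank_zero_of_subsingleton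
      have : Subsingleton W := by
        rw [hVW] at h0
        exact finrank_zero_iff.mp h0
      refine ⟨LinearEquiv.ofFinrankEq V W hVW, fun v => Subsingleton.elim _ _⟩
    · obtain ⟨m, hm1, hm2⟩ := exists_index hA h1
      have hB1 : B ^ (m + 1) = 0 := by
        rw [← finrank_range_eq_zero, ← hr, finrank_range_eq_zero]; exact hm1
      have hB2 : B ^ m ≠ 0 := by
        intro h
        apply hm2
        rw [← finrank_range_eq_zero, hr, finrank_range_eq_zero]; exact h
      obtain ⟨V', e, A', hA'⟩ := exists_split hm1 hm2
      obtain ⟨W', e', B', hB'⟩ := exists_split hB1 hB2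
      have : Module.Finite D V' := inferInstance
      have hlt : finrank D V' < n := by
        have := LinearEquiv.finrank_eq e
        rw [finrank_prod, hn] at this
        simp at this
        omega
      have hnil : IsNilpotent A' := by
        refine ⟨m + 1, ?_⟩
        have h := hm1
        rw [hA', blk_pow, ← finrank_range_eq_zero, finrank_blk] at h
        rw [← finrank_range_eq_zero]
        omega
      have hranks : ∀ k, finrank D (LinearMap.range (A' ^ k)) =
          finrank D (LinearMap.range (B' ^ k)) := by
        intro k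
        have h := hr k
        rw [hA', hB', blk_pow, blk_pow, finrank_blk, finrank_blk] at h
        omega
      obtain ⟨f, hf⟩ := ih _ hlt V' W' A' B' rfl hnil hranks
      refine ⟨e.trans ((LinearEquiv.prodCongr (LinearEquiv.refl D _) f).trans e'.symm), ?_⟩
      intro v
      rw [hA', hB']
      simp only [LinearEquiv.trans_apply, e_blk, blk_apply, LinearEquiv.apply_symm_apply]
      apply congrArg e'.symm
      ext1
      · simp
      · simp [hf]

end Pool.Agent.R706.QR
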