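import Pool.Agent.R706.QR.Basic

/-!
Splitting off a cyclic block of maximal size from a nilpotent endomorphism over the quaternions.
-/

set_option linter.unusedSectionVars false

noncomputable section

namespace Pool.Agent.R706.QR

open Quaternion

/-- the shift on `D^{m+1}` -/
def S (m : ℕ) : Module.End D (Fin (m + 1) → D) where
  toFun a := fun i => Fin.cases (motive := fun _ => D) 0 (fun j => a j.castSucc) i
  map_add' a b := by
    funext i
    refine Fin.cases ?_ (fun j => ?_) i
    · simp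
    · simp
  map_smul' c a := by
    funext i
    refine Fin.cases ?_ (fun j => ?_) i
    · simp
    · simp

@[simp] theorem S_zero (m : ℕ) (a : Fin (m + 1) → D) : S m a 0 = 0 := rfl
@[simp] theorem S_succ (m : ℕ) (a : Fin (m + 1) → D) (j : Fin m) :
    S m a j.succ = a j.castSucc := rfl

section

variable {V : Type} [AddCommGroup V] [Module D V] [Module ℝ V] [IsScalarTower ℝ D V]

/-- coordinates -/
def Cm (A : Module.End D V) (l : V →ₗ[D] D) (m : ℕ) : V →ₗ[D] (Fin (m + 1) → D) :=
  LinearMap.pi fun i => l ∘ₗ (A ^ (m - (i : ℕ)))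

theorem Cm_apply (A : Module.End D V) (l : V →ₗ[D] D) (m : ℕ) (u : V) (i : Fin (m + 1)) :
    Cm A l m u i = l ((A ^ (m - (i : ℕ))) u) := rfl

/-- the cyclic parametrization -/
def Pm (A : Module.End D V) (m : ℕ) (v : V) : (Fin (m + 1) → D) →ₗ[D] V where
  toFun a := ∑ i : Fin (m + 1), a i • (A ^ (i : ℕ)) v
  map_add' a b := by simp [add_smul, Finset.sum_add_distrib]
  map_smul' c a := by simp [Finset.smul_sum, mul_smul]

theorem Pm_apply (A : Module.End D V) (m : ℕ) (v : V) (a : Fin (m + 1) → D) :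
    Pm A m v a = ∑ i : Fin (m + 1), a i • (A ^ (i : ℕ)) v := rfl

theorem Cm_A {A : Module.End D V} {m : ℕ} (hA : A ^ (m + 1) = 0) (l : V →ₗ[D] D) (u : V) :
    Cm A l m (A u) = S m (Cm A l m u) := by
  funext i
  refine Fin.cases ?_ (fun j => ?_) i
  · rw [S_zero, Cm_apply]
    have : (A ^ (m - ((0 : Fin (m + 1)) : ℕ))) (A u) = (A ^ (m + 1)) u := by
      simp [pow_succ, Module.End.mul_apply]
    rw [this, hA]
    simp
  · rw [S_succ, Cm_apply, Cm_apply]
    have : (A ^ (m - ((j.succ : Fin (m + 1)) : ℕ))) (A u) =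
        (A ^ (m - ((j.castSucc : Fin (m + 1)) : ℕ))) u := by
      have h1 : m - ((j.castSucc : Fin (m + 1)) : ℕ) =
          (m - ((j.succ : Fin (m + 1)) : ℕ)) + 1 := by
        have := j.isLt
        simp only [Fin.val_castSucc, Fin.val_succ]
        omega
      rw [h1, pow_succ, Module.End.mul_apply]
    rw [this]

theorem A_Pm {A : Module.End D V} {m : ℕ} (hA : A ^ (m + 1) = 0) (v : V)
    (a : Fin (m + 1) → D) : A (Pm A m v a) = Pm A m v (S m a) := by
  rw [Pm_apply, Pm_apply, map_sum, Fin.sum_univ_succ (f := fun i => S m a i • (A ^ (i : ℕ)) v),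
    Fin.sum_univ_castSucc]
  have h1 : A (a (Fin.last m) • (A ^ ((Fin.last m : Fin (m + 1)) : ℕ)) v) = 0 := by
    rw [map_smul]
    have : A ((A ^ ((Fin.last m : Fin (m + 1)) : ℕ)) v) = (A ^ (m + 1)) v := by
      rw [pow_succ', Module.End.mul_apply]; rfl
    rw [this, hA]
    simp
  rw [h1, add_zero, S_zero, zero_smul, zero_add]
  refine Finset.sum_congr rfl fun i _ => ?_
  rw [S_succ, map_smul, Fin.val_succ, pow_succ', Module.End.mul_apply]
  rfl

theorem Cm_Pm {A : Module.End D V} {m : ℕ} {l : V →ₗ[D] D} {v : V}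
    (hl : ∀ k, l ((A ^ k) v) = if k = m then 1 else 0) (a : Fin (m + 1) → D) :
    Cm A l m (Pm A m v a) = a := by
  funext j
  rw [Cm_apply, Pm_apply, map_sum, map_sum, Finset.sum_eq_single j]
  · rw [map_smul, map_smul, ← Module.End.mul_apply, ← pow_add, hl]
    have := j.isLt
    rw [if_pos (by omega)]
    simp
  · intro i _ hij
    rw [map_smul, map_smul, ← Module.End.mul_apply, ← pow_add, hl]
    have := j.isLt
    have h2 : (i : ℕ) ≠ j := fun h => hij (Fin.ext h)
    rw [if_neg (by omega)]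
    simp
  · simp

theorem norm_aux {A : Module.End D V} {m : ℕ} (hA : A ^ (m + 1) = 0) (l : V →ₗ[D] D) (v : V)
    (hv : l ((A ^ m) v) = 1) (k : ℕ) :
    ∃ w : V, l ((A ^ m) w) = 1 ∧ (∀ i, 1 ≤ i → i ≤ k → i ≤ m → l ((A ^ (m - i)) w) = 0) ∧
      ∃ z, w = v + A z := by
  induction k with
  | zero => exact ⟨v, hv, fun i h1 h2 => by omega, 0, by simp⟩
  | succ k ih =>
    obtain ⟨w, h1, h2, z, h3⟩ := ih
    have hz : ∀ j, m + 1 ≤ j → A ^ j = 0 := fun j hj => by
      obtain ⟨c, rfl⟩ := Nat.exists_eq_add_of_le hj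
      rw [pow_add, hA, zero_mul]
    by_cases hk : k + 1 ≤ m
    · set c : D := l ((A ^ (m - (k + 1))) w) with hc
      refine ⟨w - c • (A ^ (k + 1)) w, ?_, ?_, z - c • (A ^ k) w, ?_⟩
      · rw [map_sub, map_smul, ← Module.End.mul_apply, ← pow_add, hz (m + (k + 1)) (by omega)]
        simpa using h1
      · intro i hi1 hi2 hi3
        rw [map_sub, map_smul, ← Module.End.mul_apply, ← pow_add]
        rcases Nat.lt_or_ge i (k + 1) with h | h
        · rw [hz (m - i + (k + 1)) (by omega)]
          simpa using h2 i hi1 (by omega) hi3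
        · have : i = k + 1 := by omega
          subst this
          have : m - (k + 1) + (k + 1) = m := by omega
          rw [this, map_sub, map_smul, h1, ← hc]
          simp
      · rw [h3, map_sub, map_smul, ← Module.End.mul_apply A, ← pow_succ']
        abel
    · refine ⟨w, h1, fun i hi1 hi2 hi3 => h2 i hi1 (by omega) hi3, z, h3⟩

/-- normalized generators -/
theorem norm_lemma {A : Module.End D V} {m : ℕ} (hA : A ^ (m + 1) = 0) (l : V →ₗ[D] D) (v : V)
    (hv : l ((A ^ m) v) = 1) :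
    ∃ w : V, (∀ k, l ((A ^ k) w) = if k = m then 1 else 0) ∧ ∃ z, w = v + A z := by
  obtain ⟨w, h1, h2, h3⟩ := norm_aux hA l v hv m
  refine ⟨w, fun k => ?_, h3⟩
  rcases Nat.lt_trichotomy k m with h | h | h
  · rw [if_neg (by omega)]
    have := h2 (m - k) (by omega) (by omega) (by omega)
    rwa [show m - (m - k) = k by omega] at this
  · rw [if_pos h, h, h1]
  · rw [if_neg (by omega)]
    obtain ⟨c, rfl⟩ := Nat.exists_eq_add_of_le (show m + 1 ≤ k by omega)
    rw [pow_add, hA, zero_mul]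
    simp

/-- functional with a prescribed value -/
theorem exists_functional {u : V} (hu : u ≠ 0) : ∃ l : V →ₗ[D] D, l u = 1 := by
  obtain ⟨f, hf, -⟩ := Submodule.exists_le_ker_of_notMem (p := (⊥ : Submodule D V)) (v := u)
    (by simpa using hu)
  refine ⟨(LinearMap.toSpanSingleton D D (f u)⁻¹) ∘ₗ f, ?_⟩
  simp [hf]

/-- the linear equivalence onto block times kernel -/
def splitE {A : Module.End D V} {m : ℕ} {l : V →ₗ[D] D} {v : V}
    (hl : ∀ k, l ((A ^ k) v) = if k = m then 1 else 0) :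
    V ≃ₗ[D] (Fin (m + 1) → D) × LinearMap.ker (Cm A l m) where
  toFun u := (Cm A l m u, ⟨u - Pm A m v (Cm A l m u), by
    rw [LinearMap.mem_ker, map_sub, Cm_Pm hl, sub_self]⟩)
  invFun x := Pm A m v x.1 + x.2
  map_add' x y := by
    ext1
    · simp
    · apply Subtype.ext
      simp only [map_add, Prod.snd_add, Submodule.coe_add]
      abel
  map_smul' c x := by
    ext1
    · simp
    · apply Subtype.ext
      simp only [map_smul, Prod.smul_snd, RingHom.id_apply, Submodule.coe_smul, smul_sub]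
  left_inv u := by simp
  right_inv x := by
    obtain ⟨a, w, hw⟩ := x
    rw [LinearMap.mem_ker] at hw
    ext1
    · simp [Cm_Pm hl, hw]
    · apply Subtype.ext
      simp [Cm_Pm hl, hw]

theorem splitE_symm {A : Module.End D V} {m : ℕ} {l : V →ₗ[D] D} {v : V}
    (hl : ∀ k, l ((A ^ k) v) = if k = m then 1 else 0) (a : Fin (m + 1) → D) :
    (splitE hl).symm (a, 0) = Pm A m v a := by
  change Pm A m v a + ((0 : LinearMap.ker (Cm A l m)) : V) = _
  simp

/-- splitting off a block -/
theorem split_blk {A : Module.End D V} {m : ℕ} (hA : A ^ (m + 1) = 0) {l : V →ₗ[D] D} {v : V}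
    (hl : ∀ k, l ((A ^ k) v) = if k = m then 1 else 0) :
    ∃ A'' : Module.End D (LinearMap.ker (Cm A l m)), A = blk (splitE hl) (S m) A'' := by
  have hker : ∀ w ∈ LinearMap.ker (Cm A l m), A w ∈ LinearMap.ker (Cm A l m) := by
    intro w hw
    rw [LinearMap.mem_ker] at hw ⊢
    rw [Cm_A hA, hw, map_zero]
  refine ⟨A.restrict hker, ?_⟩
  apply eq_blk_of
  intro u
  ext1
  · exact Cm_A hA l u
  · apply Subtype.ext
    change A u - Pm A m v (Cm A l m (A u)) = A (u - Pm A m v (Cm A l m u))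
    rw [Cm_A hA, map_sub, A_Pm hA]

end

section exist

/-- existence of a splitting -/
theorem exists_split {V : Type} [AddCommGroup V] [Module D V] [Module ℝ V]
    [IsScalarTower ℝ D V] {A : Module.End D V} {m : ℕ} (hA : A ^ (m + 1) = 0)
    (hA' : A ^ m ≠ 0) :
    ∃ (W : Submodule D V) (e : V ≃ₗ[D] (Fin (m + 1) → D) × W) (A'' : Module.End D W),
      A = blk e (S m) A'' := by
  obtain ⟨v, hv⟩ : ∃ v, (A ^ m) v ≠ 0 := by
    by_contra hcon
    push Not at hcon
    exact hA' (LinearMap.ext hcon)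
  obtain ⟨l, hl⟩ := exists_functional hv
  obtain ⟨w, hw, -⟩ := norm_lemma hA l v hl
  obtain ⟨A'', h⟩ := split_blk hA hw
  exact ⟨_, _, A'', h⟩

end exist

end Pool.Agent.R706.QR
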